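import Pool.Agent.H.MP_07c8c2_lc.A
import Pool.Agent.H.MP_2712b7_lc.A

set_option autoImplicit false

open Cardinal Set Filter Pool.Agent.H.MP_07c8c2_lc Pool.Agent.H.MP_2712b7_lc

namespace Pool.Agent.Results.MP_6efb98_lc.Yes

/-- S splits X -/
def Spl (S X : Set ℕ) : Prop := (X ∩ S).Infinite ∧ (X \ S).Infinite

/-- the splitting number -/
noncomputable def ss : Cardinal.{0} :=
  sInf {c | ∃ F : Set (Set ℕ), (∀ X : Set ℕ, X.Infinite → ∃ S ∈ F, Spl S X) ∧ #F = c}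

/-- the reaping number -/
noncomputable def rr : Cardinal.{0} :=
  sInf {c | ∃ F : Set (Set ℕ), (∀ X ∈ F, X.Infinite) ∧ (¬ ∃ S, ∀ X ∈ F, Spl S X) ∧ #F = c}

/-- the Levy collapse: functions from subsets of κ of size below κ into l -/
structure Levy (κ l : Cardinal.{0}) : Type where
  f : κ.ord.ToType → Option l.ord.ToType
  small : #{a | f a ≠ none} < κ

/-- reverse inclusion -/
instance (κ l : Cardinal.{0}) : Preorder (Levy κ l) where
  le q p := ∀ a x, p.f a = some x → q.f a = some x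
  le_refl _ _ _ := id
  le_trans _ _ _ h k a x e := h a x (k a x e)

section
variable {P K : Type} [Preorder P] [LinearOrder K]

/-- all conditions force that c names a colouring of K × ω with two colours -/
def Col (c : Set ((K × ℕ × Bool) × P)) : Prop :=
  (∀ a n p, ∃ q ≤ p, ∃ i, Mem (a, n, i) c q) ∧ ∀ a n i j p, Mem (a, n, i) c p → Mem (a, n, j) c p → i = j

/-- p forces that A is unbounded in K, B is infinite and c has the constant value i on A × B -/
def Hom (c : Set ((K × ℕ × Bool) × P)) (A : Set (K × P)) (B : Set (ℕ × P)) (i : Bool) (p : P) :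
    Prop := (∀ b, Ex (fun a r => b < a ∧ Mem a A r) p) ∧ (∀ m, Ex (fun n r => m < n ∧ Mem n B r) p) ∧
      ∀ a n, ∀ q ≤ p, Mem a A q → Mem n B q → Mem (a, n, i) c q

end

lemma pol {κ : Cardinal.{0}} (hκ : κ.IsRegular) (h : ℵ₀ < κ) (hs : κ < ss) : Pol κ := by
  intro c
  obtain ⟨Y, a, b⟩ : ∃ Y : Set ℕ, Y.Infinite ∧ ∀ x, ¬ Spl {n | c x n} Y := by
    by_contra! k
    have : ss ≤ _ := csInf_le' ⟨range fun x => {n | c x n}, by simpa using k, rfl⟩
    exact hs.not_ge (this.trans (mk_range_le.trans (by simp)))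
  have : ∀ x, ∃ y : ℕ × Bool, ∀ n ∈ Y, y.1 < n → c x n = y.2 := fun x => by
    rcases not_and_or.1 (b x) with d | d <;> obtain ⟨m, e⟩ := (not_infinite.1 d).bddAbove
    · exact ⟨(m, false), fun n f g => by simpa using fun i => (e ⟨f, i⟩).not_gt g⟩
    · exact ⟨(m, true), fun n f g => not_not.1 fun i => (e ⟨f, i⟩).not_gt g⟩
  choose y hy using this
  obtain ⟨z, d⟩ := infinite_pigeonhole y (by simpa using h.le) (by simpa [hκ.cof_ord] using h)
  exact ⟨_, Y \ Iic z.1, z.2, d.trans (by simp), a.sdiff (finite_Iic _), fun x (e : _ = _) n f =>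
    e ▸ hy x n f.1 (e ▸ not_le.1 f.2)⟩

theorem result (κ : Cardinal.{0}) (hκ : κ.IsRegular) (h1 : ℵ₁ < κ) (_h2 : κ < 𝔠) (hs : κ < ss)
    (hr : κ ≤ rr) : Pol κ ∧ ∃ c : Set ((κ.ord.ToType × ℕ × Bool) × Levy κ 𝔠), Col c ∧
      ∀ A B i p, ¬ Hom c A B i p := by
  classical
  have h0 := aleph0_lt_aleph_one.trans h1
  refine ⟨pol hκ h0 hs, ?_⟩
  obtain ⟨e⟩ : Nonempty (continuum.ord.ToType ≃ Set ℕ) := Cardinal.eq.1 (by simp)
  have lt : ∀ a : κ.ord.ToType, #(Iio a) < κ := fun a => by simpa using mk_Iio_lt a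
  have : ∀ (a : κ.ord.ToType) (g : Iio a → Option continuum.ord.ToType), ∃ S, ∀ b x, g b = some x →
      (e x).Infinite → Spl S (e x) := fun a g => by
    obtain ⟨S, k⟩ : ∃ S, ∀ X ∈ {X ∈ range fun b => (g b).elim ∅ e | X.Infinite}, Spl S X :=
      by_contra fun k => (((mk_le_mk_of_subset (sep_subset _ _)).trans mk_range_le).trans_lt
        ((lt a).trans_le hr)).not_ge (csInf_le' ⟨_, fun _ a => a.2, k, rfl⟩)
    exact ⟨S, fun b x i j => k _ ⟨⟨b, by simp [i]⟩, j⟩⟩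
  choose X hX using this
  let c : Set ((κ.ord.ToType × ℕ × Bool) × Levy κ 𝔠) := {y | (∀ b < y.1.1, y.2.f b ≠ none) ∧
    decide (y.1.2.1 ∈ X y.1.1 fun b => y.2.f b) = y.1.2.2}
  have e1 : ∀ (p : Levy κ 𝔠) a, ∃ q ≤ p, ∀ b < a, q.f b ≠ none := fun p a =>
    ⟨⟨fun b => (p.f b).or (if b < a then some (e.symm ∅) else none), (mk_le_mk_of_subset
      (t := {a | p.f a ≠ none} ∪ Iio a) fun b (i : _ ≠ _) => by_contra fun k =>
        i (by simp [not_not.1 (not_or.1 k).1, show ¬ b < a from (not_or.1 k).2])).trans_lt ((mk_union_le _ _).trans_lt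
          (add_lt_of_lt h0.le p.2 (lt a)))⟩, fun b x i => by simp [i], fun b i => by simp [i]⟩
  have e2 : ∀ a n i p, Mem (a, n, i) c p → ∀ q ≤ p, (∀ b < a, q.f b ≠ none) →
      decide (n ∈ X a fun b => q.f b) = i := fun a n i p h q k j => by
    obtain ⟨r, r1, s, r2, s1, s2⟩ := h q k
    refine Eq.trans (congrArg (fun g => decide (n ∈ X a g)) (funext fun b => ?_)) s2
    obtain ⟨x, m⟩ := Option.ne_none_iff_exists'.1 (j b b.2)
    obtain ⟨y, o⟩ := Option.ne_none_iff_exists'.1 (s1 b b.2)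
    rw [m, o, ← r1 _ _ m, r2 _ _ o]
  have e3 : ∀ a n (q : Levy κ 𝔠), (∀ b < a, q.f b ≠ none) →
      Mem (a, n, decide (n ∈ X a fun b => q.f b)) c q := fun a n q h r k => ⟨r, le_rfl, q, k, h, rfl⟩
  refine ⟨c, ⟨fun a n p => ?_, fun a n i j p u v => ?_⟩, fun A B i p ⟨a1, b1, c1⟩ => ?_⟩
  · obtain ⟨q, u, v⟩ := e1 p a
    exact ⟨q, u, _, e3 a n q v⟩
  · obtain ⟨q, w, z⟩ := e1 p a
    exact (e2 a n i p u q w z).symm.trans (e2 a n j p v q w z)
  have : ∀ n (q : Levy κ 𝔠), ∃ r ≤ q, ∀ s ≤ r, Mem n B s → Mem n B r := fun n q => by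
    by_cases k : ∃ r ≤ q, Mem n B r
    exacts [k.imp fun r u => ⟨u.1, fun _ _ _ => u.2⟩, ⟨q, le_rfl, fun s u v => (k ⟨s, u, v⟩).elim⟩]
  choose d d1 d2 using this
  let s : ℕ → Levy κ 𝔠 := Nat.rec p d
  have s1 : Antitone s := antitone_nat_of_succ_le fun n => d1 n _
  obtain ⟨q, hq⟩ : ∃ q, ∀ n, q ≤ s n := by
    choose! g hg using fun a (k : ∃ n, (s n).f a ≠ none) => k
    refine ⟨⟨fun a => (s (g a)).f a, (mk_le_mk_of_subset (t := ⋃ n, {a | (s n).f a ≠ none})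
      fun a k => mem_iUnion.2 ⟨g a, k⟩).trans_lt ((card_iUnion_lt_iff_forall_of_isRegular hκ
        (by simpa)).2 fun n => (s n).2)⟩, fun n a x k => ?_⟩
    obtain ⟨y, u⟩ := Option.ne_none_iff_exists'.1 (hg a ⟨n, by simp [k]⟩)
    exact (le_total n (g a)).elim (s1 · a x k) fun v => u.trans ((s1 v a y u).symm.trans k)
  have b2 : {n | Mem n B q}.Infinite := infinite_of_forall_exists_gt fun m => by
    obtain ⟨r, u, n, v, w⟩ := b1 m q (hq 0)
    exact ⟨n, (d2 n _ r (u.trans (hq (n + 1))) w).mono (hq (n + 1)), v⟩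
  obtain ⟨b, hb⟩ : ∃ b, q.f b = none := by
    by_contra! k
    exact q.2.ne (by simp [k])
  let r : Levy κ 𝔠 := ⟨Function.update q.f b (e.symm {n | Mem n B q}), (mk_le_mk_of_subset
    (t := insert b {a | q.f a ≠ none}) fun a k => (em (a = b)).imp_right fun u => by
      simpa [u] using k).trans_lt (mk_insert_le.trans_lt
        (add_one_lt_of_lt h0.le q.2))⟩
  have r1 : r ≤ q := fun a x k => by
    have : a ≠ b := fun u => by simp [u, hb] at k
    simp [r, this, k]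
  obtain ⟨t, t1, a, t2, t3⟩ := a1 b r (r1.trans (hq 0))
  obtain ⟨w, w1, w2⟩ := e1 t a
  have k := hX a (fun b => w.f b) ⟨b, t2⟩ (e.symm {n | Mem n B q}) (w1 _ _ (t1 _ _ (by simp [r])))
    (by simpa using b2)
  rw [Equiv.apply_symm_apply] at k
  have z : ∀ n, Mem n B q → decide (n ∈ X a fun b => w.f b) = i := fun n u =>
    e2 a n i w (c1 a n w ((w1.trans t1).trans (r1.trans (hq 0))) (t3.mono w1)
      (u.mono ((w1.trans t1).trans r1))) w le_rfl w2
  obtain ⟨n, u, v⟩ := k.1.nonempty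
  obtain ⟨m, x, y⟩ := k.2.nonempty
  simpa [v, y] using (z n u).trans (z m x).symm

end Pool.Agent.Results.MP_6efb98_lc.Yes
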